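import Pool.Agent.H49.Look2.Main

/-!
# The k-lookahead auction: the sharp upper bound for the ratio, for every `k ≥ 2`

Question 1 of MP_0f9109_lc. The instance with `k + 1` bidders: the last bidder always has the value
`1`. The values of the other `k` bidders are slightly above `1` and encode labels; with some
probability one of the `k` bidders (each with the same probability) is rich. Her value has the
equal-revenue distribution `P (v ≥ x) = c / x` on the prices `c = V 0 < V 1 < ... < V N`, truncated
at `V t`, where the class `t` is a function of the sum of the labels of the other `k - 1` bidders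
modulo `Q`. The optimal auction offers to every bidder the price `V t` (for her class `t`) and has
the last bidder as a fallback with the price `1`. A mechanism for the `k` highest bidders cannot use
the class for the fallback: by truthfulness the probability with which a bidder who is not rich
gets the item is the same in all the classes up to a small error; and a fallback at the profiles
without a rich bidder is a loss at the profiles where the same bidder is rich. The sizes of the
classes are such that all the policies of the mechanism have the same revenue.
-/

open Finset Function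

namespace Pool.Agent.Results.MP_0f9109_lc.SharpRatio

open Pool.Agent.H49.Look

/-- **The approximation ratio of the `k`-lookahead mechanism is at most
`e ^ (1 - 1 / k) / (1 + e ^ (1 - 1 / k))` for every `k ≥ 2`** (this is the known lower bound, so it
is the exact value); in particular it does not tend to `1`. For every `k ≥ 2` and `ε > 0` there is
a distribution with `k + 1` bidders on which every `k`-lookahead mechanism (and there is one) earns
at most the fraction `e ^ (1 - 1 / k) / (1 + e ^ (1 - 1 / k)) + ε` of the optimal revenue. -/
theorem result :
    (∀ k : ℕ, 2 ≤ k → rho k ≤ Real.exp (1 - 1 / k) / (1 + Real.exp (1 - 1 / k))) ∧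
    ¬ Filter.Tendsto rho Filter.atTop (nhds 1) ∧
    (∀ k : ℕ, 2 ≤ k → ∀ ε : ℝ, 0 < ε → ∃ D : (Fin (k + 1) → ℝ) →₀ ℝ,
      IsDist D ∧ 0 < OPT D ∧ (∃ m, IsLookahead k D m) ∧
      ∀ m, IsLookahead k D m → lookRev k D m / OPT D ≤
        Real.exp (1 - 1 / k) / (1 + Real.exp (1 - 1 / k)) + ε) := by
  refine ⟨Pool.Agent.H49.Look2.rho_le, ?_, Pool.Agent.H49.Look2.robust⟩
  intro h
  have h1 : (1 : ℝ) ≤ Real.exp 1 / (1 + Real.exp 1) := by
    refine le_of_tendsto h ?_
    filter_upwards [Filter.eventually_ge_atTop 2] with k hk
    refine (Pool.Agent.H49.Look2.rho_le k hk).trans ?_
    have h2 : Real.exp (1 - 1 / (k : ℝ)) ≤ Real.exp 1 := by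
      refine Real.exp_le_exp.mpr ?_
      have : (0 : ℝ) ≤ 1 / (k : ℝ) := by positivity
      linarith
    have h3 := Real.exp_pos (1 - 1 / (k : ℝ))
    have h4 := Real.exp_pos 1
    rw [div_le_div_iff₀ (by linarith) (by linarith)]
    nlinarith
  have h2 := Real.exp_pos 1
  rw [le_div_iff₀ (by linarith)] at h1
  linarith

end Pool.Agent.Results.MP_0f9109_lc.SharpRatio
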